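import Pool.Agent.helper74.GN.Defs
import Pool.Agent.helper52.GN.GN1

/-!
# GNU project, modules GN3a, GN3b
-/

namespace Pool.Agent.helper74.GN

/-- The twisted families. -/
theorem fam_iso {B C D N₁ N₂ : ℕ} (M₁ : Menu B C D N₁) (M₂ : Menu B C D N₂) {t : M₁.τ}
    {t' : M₂.τ} {θ : Th B C D} {W V : Type} [Group W] [Group V] {φ : Q B C D →* MulAut W}
    {ψ : Q B C D →* MulAut V} (e : W ≃* M₁.A t) (f : V ≃* M₂.A t') (κ : Q B C D ≃* Q B C D)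
    (he : ∀ q x, e (φ q x) = M₁.φ t (tw θ (κ q)) (e x))
    (hf : ∀ q x, f (ψ q x) = M₂.φ t' (κ q) (f x)) :
    Nonempty ((W × V) ⋊[pairHom φ ψ] Q B C D ≃* Fam M₁ M₂ t t' θ) := by
  refine ⟨SemidirectProduct.congr (e.prodCongr f) κ fun q => ?_⟩
  refine MulEquiv.ext fun x => ?_
  show (e (φ q x.1), f (ψ q x.2)) = (M₁.φ t (tw θ (κ q)) (e x.1), M₂.φ t' (κ q) (f x.2))
  rw [he, hf]

/-- GN3a -/
theorem fam_complete {B C D w v : ℕ} (h : HypQ B C D) (hw : HypW B C D w)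
    (hv : HypV B C D w v) (M₁ : Menu B C D (w ^ 3)) (M₂ : Menu B C D (v ^ 2))
    (G : Type) [Group G] (hG : Nat.card G = w ^ 3 * v ^ 2 * (B * C * D)) :
    ∃ t t' θ, Nonempty (G ≃* Fam M₁ M₂ t t' θ) := by
  obtain ⟨W, V, gW, gV, φ, ψ, hW, hV, ⟨e0⟩⟩ := structN h hw hv G hG
  obtain ⟨t, θ₁, e₁, he₁⟩ := M₁.complete W hW φ
  obtain ⟨t', θ₂, e₂, he₂⟩ := M₂.complete V hV ψ
  obtain ⟨e3⟩ := fam_iso M₁ M₂ (θ := θ₁ * θ₂⁻¹) e₁ e₂ (tw θ₂)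
    (fun q x => by rw [he₁, ← tw_mul, inv_mul_cancel_right]) he₂
  exact ⟨t, t', θ₁ * θ₂⁻¹, ⟨e0.trans e3⟩⟩

/-- GN3b -/
theorem fam_congr {B C D N₁ N₂ : ℕ} (M₁ : Menu B C D N₁) (M₂ : Menu B C D N₂) (t : M₁.τ)
    (t' : M₂.τ) (θ η : Th B C D) (hθ : θ⁻¹ * η ∈ M₁.S t ⊔ M₂.S t') :
    Nonempty (Fam M₁ M₂ t t' θ ≃* Fam M₁ M₂ t t' η) := by
  obtain ⟨s, hs, r, hr, hsr⟩ := Subgroup.mem_sup.1 hθ
  obtain ⟨e₁, he₁⟩ := M₁.stab t s hs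
  obtain ⟨e₂, he₂⟩ := M₂.stab t' r⁻¹ (inv_mem hr)
  have hη : η * r⁻¹ = s * θ := by
    have : η = θ * (s * r) := by rw [hsr, mul_inv_cancel_left]
    rw [this, mul_comm s θ, ← mul_assoc, mul_inv_cancel_right]
  refine fam_iso M₁ M₂ (θ := η) e₁.symm e₂.symm (tw r⁻¹) (fun q x => ?_) (fun q x => ?_)
  · rw [← tw_mul, hη, tw_mul]
    apply e₁.injective
    rw [he₁]
    simp
  · apply e₂.injective
    rw [he₂]
    simp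

end Pool.Agent.helper74.GN
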