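import Pool.Agent.helper74.GN.Defs

/-!
# GNU project, module GN3c
-/

namespace Pool.Agent.helper74.GN

/-- coprime exponents -/
theorem eq_one_of_pow_coprime {G : Type} [Group G] {x : G} {m n : ℕ} (h : Nat.Coprime m n)
    (hm : x ^ m = 1) (hn : x ^ n = 1) : x = 1 := by
  have h1 := Nat.dvd_gcd (orderOf_dvd_of_pow_eq_one hm) (orderOf_dvd_of_pow_eq_one hn)
  rw [h] at h1
  exact orderOf_eq_one_iff.1 (Nat.dvd_one.1 h1)

theorem pow_of_card {G : Type} [Group G] {n : ℕ} (h : Nat.card G = n) (x : G) : x ^ n = 1 := by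
  rw [← h]; exact pow_card_eq_one'

/-- a unit describing an injective endomorphism of `Multiplicative (ZMod p)`. -/
theorem exists_unit {p : ℕ} (hp : p.Prime) (f : Multiplicative (ZMod p) →* Multiplicative (ZMod p))
    (hf : ∀ x, f x = 1 → x = 1) : ∃ u : (ZMod p)ˣ, ∀ x, f x = sc u x := by
  have := Fact.mk hp
  set a : ZMod p := Multiplicative.toAdd (f (Multiplicative.ofAdd 1)) with ha
  have h1 : a ≠ 0 := by
    intro h0
    have h2 : f (Multiplicative.ofAdd 1) = 1 := by
      rw [ha] at h0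
      exact h0
    have h3 := hf _ h2
    have h4 : (1 : ZMod p) = 0 := h3
    exact one_ne_zero h4
  refine ⟨Units.mk0 a h1, fun x => ?_⟩
  rw [sc_apply, Units.val_mk0]
  have hx : x = (Multiplicative.ofAdd (1 : ZMod p)) ^ (Multiplicative.toAdd x).val := by
    rw [← ofAdd_nsmul, nsmul_one, ZMod.natCast_zmod_val]
    rfl
  conv_lhs => rw [hx]
  rw [map_pow]
  have h5 : f (Multiplicative.ofAdd 1) = Multiplicative.ofAdd a := rfl
  rw [h5, ← ofAdd_nsmul, nsmul_eq_mul, ZMod.natCast_zmod_val, mul_comm]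

/-- every automorphism of `Q` is a twist. -/
theorem exists_tw {B C D : ℕ} (h : HypQ B C D) (κ : Q B C D →* Q B C D)
    (hκ : ∀ x, κ x = 1 → x = 1) : ∃ ρ : Th B C D, ∀ q, κ q = tw ρ q := by
  have cBC : Nat.Coprime B C := (Nat.coprime_primes h.pB h.pC).2 h.BC
  have cBD : Nat.Coprime B D := (Nat.coprime_primes h.pB h.pD).2 h.BD
  have cCD : Nat.Coprime C D := (Nat.coprime_primes h.pC h.pD).2 h.CD
  have key : ∀ {n : ℕ} (x : Multiplicative (ZMod n)), x ^ n = 1 := fun {n} x => by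
    have := Nat.card_zmod n
    exact pow_of_card (by rw [Nat.card_congr Multiplicative.toAdd]; exact this) x
  -- three embeddings
  let iB : Multiplicative (ZMod B) →* Q B C D := MonoidHom.inl _ _
  let iC : Multiplicative (ZMod C) →* Q B C D := (MonoidHom.inr _ _).comp (MonoidHom.inl _ _)
  let iD : Multiplicative (ZMod D) →* Q B C D := (MonoidHom.inr _ _).comp (MonoidHom.inr _ _)
  have hB : ∀ x, (κ (iB x)).2.1 = 1 ∧ (κ (iB x)).2.2 = 1 := fun x => by
    have h1 : (κ (iB x)) ^ B = 1 := by rw [← map_pow, ← map_pow, key, map_one, map_one]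
    exact ⟨eq_one_of_pow_coprime cBC (congrArg (fun z => z.2.1) h1) (key _),
      eq_one_of_pow_coprime cBD (congrArg (fun z => z.2.2) h1) (key _)⟩
  have hC : ∀ x, (κ (iC x)).1 = 1 ∧ (κ (iC x)).2.2 = 1 := fun x => by
    have h1 : (κ (iC x)) ^ C = 1 := by rw [← map_pow, ← map_pow, key, map_one, map_one]
    exact ⟨eq_one_of_pow_coprime cBC.symm (congrArg (fun z => z.1) h1) (key _),
      eq_one_of_pow_coprime cCD (congrArg (fun z => z.2.2) h1) (key _)⟩
  have hD : ∀ x, (κ (iD x)).1 = 1 ∧ (κ (iD x)).2.1 = 1 := fun x => by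
    have h1 : (κ (iD x)) ^ D = 1 := by rw [← map_pow, ← map_pow, key, map_one, map_one]
    exact ⟨eq_one_of_pow_coprime cBD.symm (congrArg (fun z => z.1) h1) (key _),
      eq_one_of_pow_coprime cCD.symm (congrArg (fun z => z.2.1) h1) (key _)⟩
  obtain ⟨u, hu⟩ := exists_unit h.pB ((MonoidHom.fst _ _).comp (κ.comp iB)) (fun x hx => by
    have h1 : κ (iB x) = 1 := Prod.ext hx (Prod.ext (hB x).1 (hB x).2)
    exact congrArg (fun z => z.1) (hκ _ h1))
  obtain ⟨v, hv⟩ := exists_unit h.pC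
    ((MonoidHom.fst _ _).comp ((MonoidHom.snd _ _).comp (κ.comp iC))) (fun x hx => by
    have h1 : κ (iC x) = 1 := Prod.ext (hC x).1 (Prod.ext hx (hC x).2)
    exact congrArg (fun z => z.2.1) (hκ _ h1))
  obtain ⟨w, hw⟩ := exists_unit h.pD
    ((MonoidHom.snd _ _).comp ((MonoidHom.snd _ _).comp (κ.comp iD))) (fun x hx => by
    have h1 : κ (iD x) = 1 := Prod.ext (hD x).1 (Prod.ext (hD x).2 hx)
    exact congrArg (fun z => z.2.2) (hκ _ h1))
  refine ⟨(u, v, w), fun q => ?_⟩
  have hq : q = iB q.1 * (iC q.2.1 * iD q.2.2) := by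
    refine Prod.ext ?_ (Prod.ext ?_ ?_) <;> simp [iB, iC, iD]
  have hu' : (κ (iB q.1)).1 = sc u q.1 := hu q.1
  have hv' : (κ (iC q.2.1)).2.1 = sc v q.2.1 := hv q.2.1
  have hw' : (κ (iD q.2.2)).2.2 = sc w q.2.2 := hw q.2.2
  conv_lhs => rw [hq]
  rw [map_mul, map_mul, tw_apply]
  refine Prod.ext ?_ (Prod.ext ?_ ?_)
  · show (κ (iB q.1)).1 * ((κ (iC q.2.1)).1 * (κ (iD q.2.2)).1) = sc u q.1
    rw [hu', (hC _).1, (hD _).1, mul_one, mul_one]
  · show (κ (iB q.1)).2.1 * ((κ (iC q.2.1)).2.1 * (κ (iD q.2.2)).2.1) = sc v q.2.1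
    rw [hv', (hB _).1, (hD _).2, mul_one, one_mul]
  · show (κ (iB q.1)).2.2 * ((κ (iC q.2.1)).2.2 * (κ (iD q.2.2)).2.2) = sc w q.2.2
    rw [hw', (hB _).2, (hC _).2, one_mul, one_mul]

theorem card_Q {B C D : ℕ} : Nat.card (Q B C D) = B * (C * D) := by
  have h1 : ∀ n : ℕ, Nat.card (Multiplicative (ZMod n)) = n := fun n => by
    rw [Nat.card_congr Multiplicative.toAdd]; exact Nat.card_zmod n
  rw [Nat.card_prod, Nat.card_prod, h1, h1, h1]

/-- Structure of an isomorphism between two semidirect products with coprime parts. -/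
theorem fam_inj_aux {W V W' V' Q₀ : Type} [Group W] [Group V] [Group W'] [Group V'] [Group Q₀]
    {a b c : ℕ} (hW : Nat.card W = a) (hV : Nat.card V = b) (hW' : Nat.card W' = a)
    (hV' : Nat.card V' = b) (hQ : Nat.card Q₀ = c) (hab : Nat.Coprime a b)
    (hac : Nat.Coprime a c) (hbc : Nat.Coprime b c) (ha0 : a ≠ 0) (hb0 : b ≠ 0)
    (φ : Q₀ →* MulAut W) (ψ : Q₀ →* MulAut V) (φ' : Q₀ →* MulAut W') (ψ' : Q₀ →* MulAut V')
    (e : (W × V) ⋊[pairHom φ ψ] Q₀ ≃* (W' × V') ⋊[pairHom φ' ψ'] Q₀) :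
    ∃ (κ : Q₀ →* Q₀) (f : W ≃* W') (g : V ≃* V'), (∀ q, κ q = 1 → q = 1) ∧
      (∀ q, ∃ k : W', ∀ x, f (φ q x) = k * φ' (κ q) (f x) * k⁻¹) ∧
      (∀ q, ∃ k : V', ∀ x, g (ψ q x) = k * ψ' (κ q) (g x) * k⁻¹) := by
  have fW' : Finite W' := Nat.finite_of_card_ne_zero (hW' ▸ ha0)
  have fV' : Finite V' := Nat.finite_of_card_ne_zero (hV' ▸ hb0)
  -- images of `W` and `V`
  have imW : ∀ x : W, e (SemidirectProduct.inl (x, 1)) =
      SemidirectProduct.inl ((e (SemidirectProduct.inl (x, 1))).left.1, 1) := fun x => by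
    set y := e (SemidirectProduct.inl (x, 1)) with hy
    have h1 : y ^ a = 1 := by
      rw [hy, ← map_pow, ← map_pow]
      have : ((x, 1) : W × V) ^ a = 1 := by
        rw [Prod.pow_mk, pow_of_card hW, one_pow]; rfl
      rw [this, map_one, map_one]
    have h2 : y.right = 1 := by
      refine eq_one_of_pow_coprime hac ?_ (pow_of_card hQ _)
      have := congrArg SemidirectProduct.rightHom h1
      rw [map_pow, map_one] at this
      exact this
    have h3 : y = SemidirectProduct.inl y.left := by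
      conv_lhs => rw [← SemidirectProduct.inl_left_mul_inr_right y, h2, map_one, mul_one]
    have h4 : y.left ^ a = 1 := by
      apply SemidirectProduct.inl_injective (φ := pairHom φ' ψ')
      rw [map_pow, ← h3, h1, map_one]
    have h5 : y.left.2 = 1 :=
      eq_one_of_pow_coprime hab (congrArg Prod.snd h4) (pow_of_card hV' _)
    rw [h3]
    refine congrArg _ (Prod.ext rfl ?_)
    exact h5
  have imV : ∀ x : V, e (SemidirectProduct.inl (1, x)) =
      SemidirectProduct.inl (1, (e (SemidirectProduct.inl (1, x))).left.2) := fun x => by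
    set y := e (SemidirectProduct.inl (1, x)) with hy
    have h1 : y ^ b = 1 := by
      rw [hy, ← map_pow, ← map_pow]
      have : ((1, x) : W × V) ^ b = 1 := by
        rw [Prod.pow_mk, pow_of_card hV, one_pow]; rfl
      rw [this, map_one, map_one]
    have h2 : y.right = 1 := by
      refine eq_one_of_pow_coprime hbc ?_ (pow_of_card hQ _)
      have := congrArg SemidirectProduct.rightHom h1
      rw [map_pow, map_one] at this
      exact this
    have h3 : y = SemidirectProduct.inl y.left := by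
      conv_lhs => rw [← SemidirectProduct.inl_left_mul_inr_right y, h2, map_one, mul_one]
    have h4 : y.left ^ b = 1 := by
      apply SemidirectProduct.inl_injective (φ := pairHom φ' ψ')
      rw [map_pow, ← h3, h1, map_one]
    have h5 : y.left.1 = 1 :=
      eq_one_of_pow_coprime hab.symm (congrArg Prod.fst h4) (pow_of_card hW' _)
    rw [h3]
    refine congrArg _ (Prod.ext ?_ rfl)
    exact h5
  let f0 : W →* W' :=
    { toFun := fun x => (e (SemidirectProduct.inl (x, 1))).left.1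
      map_one' := by
        show (e (SemidirectProduct.inl 1)).left.1 = 1
        rw [map_one, map_one]; rfl
      map_mul' := fun x y => by
        have h1 : ((x * y, 1) : W × V) = (x, 1) * (y, 1) := by simp
        show (e (SemidirectProduct.inl (x * y, 1))).left.1 = _
        rw [h1, map_mul, map_mul, imW x, imW y, ← map_mul]
        rfl }
  let g0 : V →* V' :=
    { toFun := fun x => (e (SemidirectProduct.inl (1, x))).left.2
      map_one' := by
        show (e (SemidirectProduct.inl 1)).left.2 = 1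
        rw [map_one, map_one]; rfl
      map_mul' := fun x y => by
        have h1 : ((1, x * y) : W × V) = (1, x) * (1, y) := by simp
        show (e (SemidirectProduct.inl (1, x * y))).left.2 = _
        rw [h1, map_mul, map_mul, imV x, imV y, ← map_mul]
        rfl }
  have hf0 : ∀ x, e (SemidirectProduct.inl (x, 1)) = SemidirectProduct.inl (f0 x, 1) := imW
  have hg0 : ∀ x, e (SemidirectProduct.inl (1, x)) = SemidirectProduct.inl (1, g0 x) := imV
  have f0inj : Function.Injective f0 := fun x y hxy => by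
    have h1 : e (SemidirectProduct.inl (x, 1)) = e (SemidirectProduct.inl (y, 1)) := by
      rw [hf0, hf0, hxy]
    exact congrArg Prod.fst (SemidirectProduct.inl_injective (e.injective h1))
  have g0inj : Function.Injective g0 := fun x y hxy => by
    have h1 : e (SemidirectProduct.inl (1, x)) = e (SemidirectProduct.inl (1, y)) := by
      rw [hg0, hg0, hxy]
    exact congrArg Prod.snd (SemidirectProduct.inl_injective (e.injective h1))
  have f0bij : Function.Bijective f0 :=
    (Nat.bijective_iff_injective_and_card f0).2 ⟨f0inj, by rw [hW, hW']⟩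
  have g0bij : Function.Bijective g0 :=
    (Nat.bijective_iff_injective_and_card g0).2 ⟨g0inj, by rw [hV, hV']⟩
  let κ : Q₀ →* Q₀ := SemidirectProduct.rightHom.comp (e.toMonoidHom.comp SemidirectProduct.inr)
  have hκ : ∀ q, κ q = (e (SemidirectProduct.inr q)).right := fun q => rfl
  have hdec : ∀ q, e (SemidirectProduct.inr q) =
      SemidirectProduct.inl (e (SemidirectProduct.inr q)).left * SemidirectProduct.inr (κ q) :=
    fun q => (SemidirectProduct.inl_left_mul_inr_right _).symm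
  refine ⟨κ, MulEquiv.ofBijective f0 f0bij, MulEquiv.ofBijective g0 g0bij, ?_, ?_, ?_⟩
  · intro q hq
    have h1 := hdec q
    rw [hq, map_one, mul_one] at h1
    obtain ⟨x, hx⟩ := f0bij.2 (e (SemidirectProduct.inr q)).left.1
    obtain ⟨y, hy⟩ := g0bij.2 (e (SemidirectProduct.inr q)).left.2
    have h2 : e (SemidirectProduct.inl (x, y)) = e (SemidirectProduct.inr q) := by
      have h3 : ((x, y) : W × V) = (x, 1) * (1, y) := by simp
      rw [h3, map_mul, map_mul, hf0, hg0, hx, hy, ← map_mul, h1]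
      congr 1
      exact Prod.ext (mul_one _) (one_mul _)
    have h4 := congrArg SemidirectProduct.right (e.injective h2)
    exact h4.symm
  · intro q
    refine ⟨(e (SemidirectProduct.inr q)).left.1, fun x => ?_⟩
    have h1 : e (SemidirectProduct.inl (pairHom φ ψ q (x, 1))) =
        e (SemidirectProduct.inr q) * e (SemidirectProduct.inl (x, 1)) *
          (e (SemidirectProduct.inr q))⁻¹ := by
      rw [← map_inv, ← map_mul, ← map_mul, SemidirectProduct.inl_aut, map_inv]
    rw [hf0, hdec q] at h1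
    have h2 : pairHom φ ψ q (x, 1) = (φ q x, 1) := by
      rw [pairHom_apply, map_one]
    rw [h2, hf0] at h1
    set k := (e (SemidirectProduct.inr q)).left with hk
    have h3 : SemidirectProduct.inl k * SemidirectProduct.inr (κ q) *
        SemidirectProduct.inl (f0 x, 1) *
        (SemidirectProduct.inl k * SemidirectProduct.inr (κ q))⁻¹ =
        (SemidirectProduct.inl (k * pairHom φ' ψ' (κ q) (f0 x, 1) * k⁻¹) :
          (W' × V') ⋊[pairHom φ' ψ'] Q₀) := by
      rw [map_mul, map_mul, SemidirectProduct.inl_aut, map_inv, map_inv]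
      group
    rw [h3] at h1
    have h4 := congrArg Prod.fst (SemidirectProduct.inl_injective h1)
    exact h4
  · intro q
    refine ⟨(e (SemidirectProduct.inr q)).left.2, fun x => ?_⟩
    have h1 : e (SemidirectProduct.inl (pairHom φ ψ q (1, x))) =
        e (SemidirectProduct.inr q) * e (SemidirectProduct.inl (1, x)) *
          (e (SemidirectProduct.inr q))⁻¹ := by
      rw [← map_inv, ← map_mul, ← map_mul, SemidirectProduct.inl_aut, map_inv]
    rw [hg0, hdec q] at h1
    have h2 : pairHom φ ψ q (1, x) = (1, ψ q x) := by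
      rw [pairHom_apply, map_one]
    rw [h2, hg0] at h1
    set k := (e (SemidirectProduct.inr q)).left with hk
    have h3 : SemidirectProduct.inl k * SemidirectProduct.inr (κ q) *
        SemidirectProduct.inl (1, g0 x) *
        (SemidirectProduct.inl k * SemidirectProduct.inr (κ q))⁻¹ =
        (SemidirectProduct.inl (k * pairHom φ' ψ' (κ q) (1, g0 x) * k⁻¹) :
          (W' × V') ⋊[pairHom φ' ψ'] Q₀) := by
      rw [map_mul, map_mul, SemidirectProduct.inl_aut, map_inv, map_inv]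
      group
    rw [h3] at h1
    have h4 := congrArg Prod.snd (SemidirectProduct.inl_injective h1)
    exact h4

/-- GN3c -/
theorem fam_inj {B C D w v : ℕ} (h : HypQ B C D) (hw : HypW B C D w)
    (hv : HypV B C D w v) (M₁ : Menu B C D (w ^ 3)) (M₂ : Menu B C D (v ^ 2))
    (t u : M₁.τ) (t' u' : M₂.τ) (θ η : Th B C D)
    (e : Fam M₁ M₂ t t' θ ≃* Fam M₁ M₂ u u' η) :
    t = u ∧ t' = u' ∧ θ⁻¹ * η ∈ M₁.S t ⊔ M₂.S t' := by
  have cop : ∀ {p q : ℕ}, p.Prime → q.Prime → p < q → Nat.Coprime q p := fun hp hq hpq =>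
    (Nat.coprime_primes hq hp).2 hpq.ne'
  have wv : w < v := lt_of_le_of_lt (Nat.le_self_pow (by norm_num) w) hv.wv
  have hab : Nat.Coprime (w ^ 3) (v ^ 2) :=
    Nat.Coprime.pow _ _ (cop hw.pw hv.pv wv).symm
  have hac : Nat.Coprime (w ^ 3) (B * (C * D)) :=
    Nat.Coprime.pow_left _ (Nat.Coprime.mul_right (cop h.pB hw.pw hw.Bw)
      (Nat.Coprime.mul_right (cop h.pC hw.pw hw.Cw) (cop h.pD hw.pw hw.Dw)))
  have hbc : Nat.Coprime (v ^ 2) (B * (C * D)) :=
    Nat.Coprime.pow_left _ (Nat.Coprime.mul_right (cop h.pB hv.pv (hw.Bw.trans wv))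
      (Nat.Coprime.mul_right (cop h.pC hv.pv (hw.Cw.trans wv)) (cop h.pD hv.pv (hw.Dw.trans wv))))
  obtain ⟨κ, f, g, hκ, hf, hg⟩ := fam_inj_aux (M₁.card t) (M₂.card t') (M₁.card u) (M₂.card u')
    card_Q hab hac hbc (pow_pos hw.pw.pos 3).ne' (pow_pos hv.pv.pos 2).ne' _ _ _ _ e
  obtain ⟨ρ, hρ⟩ := exists_tw h κ hκ
  obtain ⟨h1, h2⟩ := M₂.inj t' u' ρ⁻¹ ⟨g, fun q => by
    obtain ⟨k, hk⟩ := hg (tw ρ⁻¹ q)
    refine ⟨k, fun x => ?_⟩
    rw [hk, hρ, ← tw_mul, mul_inv_cancel, tw_one]⟩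
  obtain ⟨h3, h4⟩ := M₁.inj t u (θ * η⁻¹ * ρ⁻¹) ⟨f, fun q => by
    obtain ⟨k, hk⟩ := hf (tw (η⁻¹ * ρ⁻¹) q)
    refine ⟨k, fun x => ?_⟩
    have h5 := hk x
    have h6 : ((M₁.φ t).comp (tw θ).toMonoidHom) (tw (η⁻¹ * ρ⁻¹) q) =
        M₁.φ t (tw (θ * η⁻¹ * ρ⁻¹) q) := by
      rw [mul_assoc θ, tw_mul θ]; rfl
    have h7 : ((M₁.φ u).comp (tw η).toMonoidHom) (κ (tw (η⁻¹ * ρ⁻¹) q)) = M₁.φ u q := by
      show M₁.φ u (tw η (κ (tw (η⁻¹ * ρ⁻¹) q))) = _
      rw [hρ, ← tw_mul, ← tw_mul]
      have : η * ρ * (η⁻¹ * ρ⁻¹) = 1 := by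
        rw [mul_comm η⁻¹ ρ⁻¹, ← mul_inv_rev, mul_inv_cancel]
      rw [this, tw_one]
    rw [h6, h7] at h5
    exact h5⟩
  refine ⟨h3, h1, ?_⟩
  have h8 : θ⁻¹ * η = (θ * η⁻¹ * ρ⁻¹)⁻¹ * ρ⁻¹ := by
    rw [mul_inv_rev, mul_inv_rev, inv_inv, inv_inv, mul_comm ρ, mul_assoc, mul_inv_cancel,
      mul_one, mul_comm]
  rw [h8]
  exact Subgroup.mul_mem_sup (inv_mem h4) h2

end Pool.Agent.helper74.GN
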